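import Mathlib

/-!
# Binary codes: a failure of the existence of the asymptotic rate would be robust

`A n d` is the largest size of a binary code of length `n` with minimum distance at least `d`, and
`rate n d = (1/n) log₂ A n d`.

For every `δ₀ > 0` the limit of `rate n ⌊δ₀ n⌋` exists if and only if `δ₀` is a limit of numbers `δ`
such that `rate (n k) (d k)` converges for one sequence with `n (k+1) / n k → 1` and
`d k / n k → δ`. If the limit does not exist, then there are `α < β` and `c > 0` such that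
`rate n d ≤ α` on infinitely many whole windows `N ≤ n ≤ (1 + c) N`, `|d/n - δ₀| ≤ c`, and
`rate n d ≥ β` on infinitely many windows of this kind.

The proof uses the inequality `A n' d' ≤ 2 ^ (n' - n) A n d` for `n ≤ n'` and `d ≤ d'`
(shortening).
-/

set_option autoImplicit false

open Filter Topology

namespace Pool.Agent.Results.MP_fb48ba_lc.RobustFailure

/-- `A n d`: the largest size of a binary code of length `n` with minimum distance at least `d`. -/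
noncomputable def A (n d : ℕ) : ℕ :=
  sSup {k : ℕ | ∃ C : Finset (Fin n → Bool), C.card = k ∧
    ∀ x ∈ C, ∀ y ∈ C, x ≠ y → d ≤ hammingDist x y}

/-- The rate `(1/n) log₂ A n d`. -/
noncomputable def rate (n d : ℕ) : ℝ := Real.logb 2 (A n d) / n

theorem bdd (n d : ℕ) : BddAbove {k : ℕ | ∃ C : Finset (Fin n → Bool), C.card = k ∧
    ∀ x ∈ C, ∀ y ∈ C, x ≠ y → d ≤ hammingDist x y} := by
  refine ⟨Fintype.card (Fin n → Bool), ?_⟩
  rintro k ⟨C, rfl, _⟩
  exact Finset.card_le_univ C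

theorem card_le_A {n d : ℕ} (C : Finset (Fin n → Bool))
    (h : ∀ x ∈ C, ∀ y ∈ C, x ≠ y → d ≤ hammingDist x y) : C.card ≤ A n d :=
  le_csSup (bdd n d) ⟨C, rfl, h⟩

theorem exists_code (n d : ℕ) : ∃ C : Finset (Fin n → Bool), C.card = A n d ∧
    ∀ x ∈ C, ∀ y ∈ C, x ≠ y → d ≤ hammingDist x y :=
  Nat.sSup_mem (s := {k : ℕ | ∃ C : Finset (Fin n → Bool), C.card = k ∧
    ∀ x ∈ C, ∀ y ∈ C, x ≠ y → d ≤ hammingDist x y})
    ⟨0, ∅, rfl, fun x hx => absurd hx (Finset.notMem_empty x)⟩ (bdd n d)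

theorem one_le_A (n d : ℕ) : 1 ≤ A n d := by
  have := card_le_A (n := n) (d := d) {fun _ => false} (by
    intro x hx y hy hxy
    rw [Finset.mem_singleton] at hx hy
    exact absurd (hx.trans hy.symm) hxy)
  simpa using this

theorem A_anti {n d d' : ℕ} (h : d ≤ d') : A n d' ≤ A n d := by
  obtain ⟨C, hC, hd⟩ := exists_code n d'
  rw [← hC]
  exact card_le_A C fun x hx y hy hxy => h.trans (hd x hx y hy hxy)

theorem A_le_pow (n d : ℕ) : A n d ≤ 2 ^ n := by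
  obtain ⟨C, hC, -⟩ := exists_code n d
  rw [← hC]
  refine (Finset.card_le_univ C).trans ?_
  simp

theorem dist_tail {n : ℕ} {x y : Fin (n + 1) → Bool} (h : x 0 = y 0) :
    hammingDist (Fin.tail x) (Fin.tail y) = hammingDist x y := by
  classical
  unfold hammingDist
  have : (Finset.univ.filter fun i => x i ≠ y i) =
      (Finset.univ.filter fun i : Fin n => Fin.tail x i ≠ Fin.tail y i).map
        ⟨Fin.succ, Fin.succ_injective n⟩ := by
    ext i
    simp only [Finset.mem_filter, Finset.mem_univ, true_and, Finset.mem_map,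
      Function.Embedding.coeFn_mk]
    constructor
    · intro hi
      have hi0 : i ≠ 0 := by
        rintro rfl
        exact hi h
      obtain ⟨j, rfl⟩ := Fin.exists_succ_eq.2 hi0
      exact ⟨j, hi, rfl⟩
    · rintro ⟨j, hj, rfl⟩
      exact hj
  rw [this, Finset.card_map]

/-- Shortening by one coordinate. -/
theorem A_succ (n d : ℕ) : A (n + 1) d ≤ 2 * A n d := by
  classical
  obtain ⟨C, hC, hd⟩ := exists_code (n + 1) d
  have key : ∀ b : Bool, (C.filter fun x => x 0 = b).card ≤ A n d := by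
    intro b
    have hinj : Set.InjOn (Fin.tail : (Fin (n + 1) → Bool) → Fin n → Bool)
        (C.filter fun x => x 0 = b) := by
      intro x hx y hy hxy
      rw [Finset.mem_coe, Finset.mem_filter] at hx hy
      rw [← Fin.cons_self_tail x, ← Fin.cons_self_tail y, hxy, hx.2, hy.2]
    rw [← Finset.card_image_of_injOn hinj]
    refine card_le_A _ ?_
    intro u hu v hv huv
    rw [Finset.mem_image] at hu hv
    obtain ⟨x, hx, rfl⟩ := hu
    obtain ⟨y, hy, rfl⟩ := hv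
    rw [Finset.mem_filter] at hx hy
    rw [dist_tail (hx.2.trans hy.2.symm)]
    exact hd x hx.1 y hy.1 fun h => huv (by rw [h])
  have hsum : C.card = (C.filter fun x => x 0 = true).card +
      (C.filter fun x => x 0 = false).card := by
    rw [← Finset.card_filter_add_card_filter_not (s := C) (fun x => x 0 = true)]
    congr 2
    ext x
    simp
  have h1 := key true
  have h2 := key false
  omega

theorem A_le {n n' d d' : ℕ} (hn : n ≤ n') (hd : d ≤ d') : A n' d' ≤ 2 ^ (n' - n) * A n d := by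
  obtain ⟨m, rfl⟩ := Nat.exists_eq_add_of_le hn
  rw [Nat.add_sub_cancel_left]
  induction m with
  | zero => simpa using A_anti hd
  | succ m ih =>
    have h1 := A_succ (n + m) d'
    have h2 := ih (Nat.le_add_right _ _)
    calc A (n + (m + 1)) d' ≤ 2 * A (n + m) d' := h1
      _ ≤ 2 * (2 ^ m * A n d) := Nat.mul_le_mul_left 2 h2
      _ = 2 ^ (m + 1) * A n d := by ring

/-- the logarithm of `A` -/
noncomputable def f (n d : ℕ) : ℝ := Real.logb 2 (A n d)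

theorem f_nonneg (n d : ℕ) : 0 ≤ f n d :=
  Real.logb_nonneg (by norm_num) (by exact_mod_cast one_le_A n d)

theorem f_le (n d : ℕ) : f n d ≤ n := by
  unfold f
  have h1 : ((A n d : ℕ) : ℝ) ≤ (2 : ℝ) ^ (n : ℕ) := by exact_mod_cast A_le_pow n d
  have h0 : (0 : ℝ) < A n d := by exact_mod_cast one_le_A n d
  calc Real.logb 2 (A n d) ≤ Real.logb 2 ((2 : ℝ) ^ (n : ℕ)) :=
        Real.logb_le_logb_of_le (by norm_num) h0 h1
    _ = n := by rw [Real.logb_pow, Real.logb_self_eq_one (by norm_num), mul_one]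

theorem f_step {n n' d d' : ℕ} (hn : n ≤ n') (hd : d ≤ d') :
    f n' d' ≤ f n d + ((n' : ℝ) - n) := by
  unfold f
  have h1 : ((A n' d' : ℕ) : ℝ) ≤ (2 : ℝ) ^ (n' - n) * A n d := by exact_mod_cast A_le hn hd
  have h0 : (0 : ℝ) < A n' d' := by exact_mod_cast one_le_A n' d'
  have h2 : (0 : ℝ) < A n d := by exact_mod_cast one_le_A n d
  calc Real.logb 2 (A n' d') ≤ Real.logb 2 ((2 : ℝ) ^ (n' - n) * A n d) :=
        Real.logb_le_logb_of_le (by norm_num) h0 h1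
    _ = Real.logb 2 (A n d) + ((n' : ℝ) - n) := by
        rw [Real.logb_mul (by positivity) h2.ne', Real.logb_pow,
          Real.logb_self_eq_one (by norm_num), mul_one, Nat.cast_sub hn]
        ring

theorem rate_eq (n d : ℕ) : rate n d = f n d / n := rfl

theorem rate_nonneg (n d : ℕ) : 0 ≤ rate n d := div_nonneg (f_nonneg n d) (Nat.cast_nonneg n)

theorem rate_le_one (n d : ℕ) : rate n d ≤ 1 := by
  rw [rate_eq]
  rcases Nat.eq_zero_or_pos n with rfl | hn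
  · simp
  · rw [div_le_one (by exact_mod_cast hn)]
    exact f_le n d

/-- `[N, (1 + c) N]` is a window at which all rates near `δ₀` satisfy `P`. -/
def Window (δ₀ c : ℝ) (P : ℝ → Prop) (N : ℕ) : Prop :=
  ∀ n d : ℕ, N ≤ n → (n : ℝ) ≤ (1 + c) * N → |(d : ℝ) / n - δ₀| ≤ c → P (rate n d)

theorem exists_crossing (δ₀ : ℝ)
    (hno : ¬∃ L : ℝ, Tendsto (fun n : ℕ => rate n ⌊δ₀ * n⌋₊) atTop (𝓝 L)) :
    ∃ a b : ℝ, a < b ∧ (∀ M : ℕ, ∃ N, M ≤ N ∧ rate N ⌊δ₀ * N⌋₊ < a) ∧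
      ∀ M : ℕ, ∃ N, M ≤ N ∧ b < rate N ⌊δ₀ * N⌋₊ := by
  by_contra h
  refine hno (tendsto_of_no_upcrossings (s := Set.univ) dense_univ ?_ ?_ ?_)
  · rintro a - b - hab ⟨h1, h2⟩
    refine h ⟨a, b, hab, fun M => ?_, fun M => ?_⟩
    · obtain ⟨N, hN, hN'⟩ := frequently_atTop.1 h1 M
      exact ⟨N, hN, hN'⟩
    · obtain ⟨N, hN, hN'⟩ := frequently_atTop.1 h2 M
      exact ⟨N, hN, hN'⟩
  · exact isBoundedUnder_of ⟨1, fun n => rate_le_one _ _⟩
  · exact isBoundedUnder_of ⟨0, fun n => rate_nonneg _ _⟩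

theorem low_window {δ₀ a η c : ℝ} (h0 : 0 < δ₀) (ha : 0 ≤ a) (hη : 0 < η) (hη1 : η ≤ 1 / 3)
    (hc : 0 < c) (hc1 : c ≤ δ₀ * η / 8) (hc2 : c ≤ η / 16) {N₀ : ℕ} (hN : 16 / (7 * η) ≤ N₀)
    (h : rate N₀ ⌊δ₀ * N₀⌋₊ < a) :
    Window δ₀ c (fun r => r ≤ a + η) ⌈(1 + η / 2) * N₀⌉₊ := by
  intro n d hn hn' hd
  have hN0 : (0 : ℝ) < N₀ := lt_of_lt_of_le (by positivity) hN
  have h1 : (1 + η / 2) * N₀ ≤ n := (Nat.le_ceil _).trans (by exact_mod_cast hn)
  have h2 : ((⌈(1 + η / 2) * (N₀ : ℝ)⌉₊ : ℕ) : ℝ) ≤ (1 + η / 2) * N₀ + 1 :=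
    (Nat.ceil_lt_add_one (by positivity)).le
  have h3 : (N₀ : ℝ) ≤ n := by nlinarith
  have hnpos : (0 : ℝ) < n := lt_of_lt_of_le hN0 h3
  have h4 : (n : ℝ) ≤ (1 + c) * ((1 + η / 2) * N₀ + 1) :=
    hn'.trans (mul_le_mul_of_nonneg_left h2 (by positivity))
  -- the distance
  have h5 : (δ₀ - c) * n ≤ d := by
    have := (abs_le.1 hd).1
    have h6 : δ₀ - c ≤ (d : ℝ) / n := by linarith
    rwa [le_div_iff₀ hnpos] at h6
  have h7 : δ₀ * N₀ ≤ d := by
    have h8 : δ₀ * (1 - η / 8) ≤ δ₀ - c := by nlinarith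
    have h9 : δ₀ ≤ δ₀ * (1 - η / 8) * (1 + η / 2) := by nlinarith [mul_pos h0 hη]
    calc δ₀ * N₀ ≤ δ₀ * (1 - η / 8) * (1 + η / 2) * N₀ :=
          mul_le_mul_of_nonneg_right h9 hN0.le
      _ = δ₀ * (1 - η / 8) * ((1 + η / 2) * N₀) := by ring
      _ ≤ δ₀ * (1 - η / 8) * n := by
          refine mul_le_mul_of_nonneg_left h1 (mul_nonneg h0.le (by linarith))
      _ ≤ (δ₀ - c) * n := mul_le_mul_of_nonneg_right h8 hnpos.le
      _ ≤ d := h5
  have h10 : ⌊δ₀ * N₀⌋₊ ≤ d := by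
    have := (Nat.floor_le (by positivity : 0 ≤ δ₀ * (N₀ : ℝ))).trans h7
    exact_mod_cast this
  have h11 := f_step (n := N₀) (n' := n) (by exact_mod_cast h3) h10
  have h12 : f N₀ ⌊δ₀ * N₀⌋₊ ≤ a * N₀ := by
    rw [rate_eq, div_lt_iff₀ hN0] at h
    exact h.le
  have h13 : (1 + c) * (1 + η / 2) * (1 - η) ≤ 1 - 7 * η / 16 := by
    have e1 : (1 + c) * ((1 + η / 2) * (1 - η)) ≤ (1 + η / 16) * ((1 + η / 2) * (1 - η)) :=
      mul_le_mul_of_nonneg_right (by linarith)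
        (mul_nonneg (by positivity) (by linarith))
    nlinarith [sq_nonneg η, pow_pos hη 3]
  have h14 : n * (1 - η) ≤ (N₀ : ℝ) := by
    have e1 : n * (1 - η) ≤ (1 + c) * ((1 + η / 2) * N₀ + 1) * (1 - η) :=
      mul_le_mul_of_nonneg_right h4 (by linarith)
    have e2 : (1 + c) * (1 - η) ≤ 1 := by nlinarith
    have e3 : (1 + c) * (1 + η / 2) * (1 - η) * N₀ ≤ (1 - 7 * η / 16) * N₀ :=
      mul_le_mul_of_nonneg_right h13 hN0.le
    have e4 : 1 ≤ 7 * η / 16 * N₀ := by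
      rw [div_le_iff₀ (by positivity)] at hN
      linarith
    nlinarith
  show rate n d ≤ a + η
  rw [rate_eq, div_le_iff₀ hnpos]
  nlinarith

theorem high_window {δ₀ b η c : ℝ} (h0 : 0 < δ₀) (hb : 0 ≤ b) (hη : 0 < η) (hη1 : η ≤ 1 / 3)
    (hc : 0 < c) (hc1 : c ≤ δ₀ * η / 8) (hc2 : c ≤ η / 16) {N₁ : ℕ}
    (hN : 3 / η ≤ N₁ / (1 + η / 2)) (h : b < rate N₁ ⌊δ₀ * N₁⌋₊) :
    Window δ₀ c (fun r => b - η ≤ r) ⌊(N₁ : ℝ) / (1 + η / 2)⌋₊ := by
  intro n d hn hn' hd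
  set y : ℝ := N₁ / (1 + η / 2) with hy
  have hy1 : (N₁ : ℝ) = y * (1 + η / 2) := by
    rw [hy]; field_simp
  have hy2 : 3 ≤ y * η := by rwa [div_le_iff₀ hη] at hN
  have hypos : 0 < y := by nlinarith
  have hN1 : (0 : ℝ) < N₁ := by rw [hy1]; positivity
  have h1 : ((⌊y⌋₊ : ℕ) : ℝ) ≤ y := Nat.floor_le hypos.le
  have h2 : y < (⌊y⌋₊ : ℕ) + 1 := Nat.lt_floor_add_one y
  have h3 : y - 1 ≤ n := by
    have : ((⌊y⌋₊ : ℕ) : ℝ) ≤ n := by exact_mod_cast hn
    linarith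
  have hnpos : (0 : ℝ) < n := by nlinarith
  have h4 : (n : ℝ) ≤ (1 + c) * y := hn'.trans (mul_le_mul_of_nonneg_left h1 (by positivity))
  have h5 : (n : ℝ) ≤ N₁ := by rw [hy1]; nlinarith
  have h6 : (d : ℝ) ≤ (δ₀ + c) * n := by
    have := (abs_le.1 hd).2
    have h6 : (d : ℝ) / n ≤ δ₀ + c := by linarith
    rwa [div_le_iff₀ hnpos] at h6
  have h7 : (d : ℝ) ≤ δ₀ * N₁ := by
    have e1 : δ₀ + c ≤ δ₀ * (1 + η / 8) := by nlinarith
    have e2 : (1 + η / 8) * (1 + c) ≤ 1 + η / 2 := by nlinarith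
    calc (d : ℝ) ≤ (δ₀ + c) * n := h6
      _ ≤ δ₀ * (1 + η / 8) * n := mul_le_mul_of_nonneg_right e1 hnpos.le
      _ ≤ δ₀ * (1 + η / 8) * ((1 + c) * y) := mul_le_mul_of_nonneg_left h4 (by positivity)
      _ = δ₀ * y * ((1 + η / 8) * (1 + c)) := by ring
      _ ≤ δ₀ * y * (1 + η / 2) := mul_le_mul_of_nonneg_left e2 (by positivity)
      _ = δ₀ * N₁ := by rw [hy1]; ring
  have h10 : d ≤ ⌊δ₀ * N₁⌋₊ := Nat.le_floor h7
  have h11 := f_step (n := n) (n' := N₁) (by exact_mod_cast h5) h10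
  have h12 : b * N₁ ≤ f N₁ ⌊δ₀ * N₁⌋₊ := by
    rw [rate_eq, lt_div_iff₀ hN1] at h
    exact h.le
  have h14 : (N₁ : ℝ) - n ≤ η * n := by
    rw [hy1]
    nlinarith
  have h15 : b * n ≤ b * N₁ := mul_le_mul_of_nonneg_left h5 hb
  show b - η ≤ rate n d
  rw [rate_eq, le_div_iff₀ hnpos]
  nlinarith

theorem robust (δ₀ : ℝ) (h0 : 0 < δ₀)
    (hno : ¬∃ L : ℝ, Tendsto (fun n : ℕ => rate n ⌊δ₀ * n⌋₊) atTop (𝓝 L)) :
    ∃ α β c : ℝ, α < β ∧ 0 < c ∧
      (∀ M : ℕ, ∃ N, M ≤ N ∧ Window δ₀ c (fun r => r ≤ α) N) ∧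
      ∀ M : ℕ, ∃ N, M ≤ N ∧ Window δ₀ c (fun r => β ≤ r) N := by
  obtain ⟨a, b, hab, ha, hb⟩ := exists_crossing δ₀ hno
  have ha0 : 0 ≤ a := by
    obtain ⟨N, -, hN⟩ := ha 0
    exact ((rate_nonneg _ _).trans_lt hN).le
  have hb1 : b ≤ 1 := by
    obtain ⟨N, -, hN⟩ := hb 0
    exact (hN.trans_le (rate_le_one _ _)).le
  set η : ℝ := (b - a) / 3 with hη
  have hη0 : 0 < η := by rw [hη]; linarith
  have hη1 : η ≤ 1 / 3 := by rw [hη]; linarith
  set c : ℝ := min (δ₀ * η / 8) (η / 16) with hc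
  have hc0 : 0 < c := lt_min (by positivity) (by positivity)
  refine ⟨a + η, b - η, c, by rw [hη]; linarith, hc0, fun M => ?_, fun M => ?_⟩
  · obtain ⟨N, hN, hN'⟩ := ha (max M ⌈16 / (7 * η)⌉₊)
    refine ⟨_, ?_, low_window h0 ha0 hη0 hη1 hc0 (min_le_left _ _) (min_le_right _ _) ?_ hN'⟩
    · refine ((le_max_left _ _).trans hN).trans ?_
      have : (N : ℝ) ≤ (1 + η / 2) * N := by nlinarith [(Nat.cast_nonneg N : (0 : ℝ) ≤ N)]
      exact_mod_cast this.trans (Nat.le_ceil _)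
    · exact (Nat.le_ceil _).trans (by exact_mod_cast (le_max_right _ _).trans hN)
  · obtain ⟨N, hN, hN'⟩ := hb ⌈(1 + η / 2) * ((M : ℝ) + 3 / η)⌉₊
    have h1 : (1 + η / 2) * ((M : ℝ) + 3 / η) ≤ N := (Nat.le_ceil _).trans (by exact_mod_cast hN)
    have h2 : (M : ℝ) + 3 / η ≤ N / (1 + η / 2) := by
      rw [le_div_iff₀ (by positivity)]
      linarith
    refine ⟨_, ?_, high_window h0 (ha0.trans hab.le) hη0 hη1 hc0 (min_le_left _ _)
      (min_le_right _ _) ?_ hN'⟩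
    · refine Nat.le_floor (le_trans ?_ h2)
      have : 0 < 3 / η := by positivity
      linarith
    · exact le_trans (by linarith [(Nat.cast_nonneg M : (0 : ℝ) ≤ M)]) h2

/-- A sequence of lengths with quotients tending to `1` meets all late windows. -/
theorem meets {δ₀ δ c : ℝ} {P : ℝ → Prop} (hc : 0 < c) (hδ : |δ - δ₀| ≤ c / 2)
    (hP : ∀ M : ℕ, ∃ N, M ≤ N ∧ Window δ₀ c P N) {n d : ℕ → ℕ} (hn : Tendsto n atTop atTop)
    (hq : Tendsto (fun k => (n (k + 1) : ℝ) / n k) atTop (𝓝 1))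
    (hd : Tendsto (fun k => (d k : ℝ) / n k) atTop (𝓝 δ)) :
    ∃ᶠ k in atTop, P (rate (n k) (d k)) := by
  rw [frequently_atTop]
  intro K
  have e1 : ∀ᶠ k in atTop, (n (k + 1) : ℝ) / n k < 1 + c :=
    hq.eventually (gt_mem_nhds (by linarith))
  have e2 : ∀ᶠ k in atTop, |(d k : ℝ) / n k - δ| < c / 2 := by
    have := (Metric.tendsto_nhds.1 hd) (c / 2) (by positivity)
    simpa [Real.dist_eq] using this
  have e3 : ∀ᶠ k in atTop, 1 ≤ n k := hn.eventually (eventually_ge_atTop 1)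
  obtain ⟨K₀, hK₀⟩ := eventually_atTop.1 (e1.and (e2.and e3))
  set K₁ := max K K₀ with hK₁
  obtain ⟨N, hN, hW⟩ := hP (n K₁ + 1)
  have hex : ∃ k, K₁ ≤ k ∧ N ≤ n k := by
    obtain ⟨k, hk⟩ := eventually_atTop.1 ((hn.eventually (eventually_ge_atTop N)).and
      (eventually_ge_atTop K₁))
    exact ⟨k, (hk k le_rfl).2, (hk k le_rfl).1⟩
  classical
  obtain ⟨h1, h2⟩ := Nat.find_spec hex
  set k := Nat.find hex with hk
  have h3 : K₁ ≠ k := by
    intro h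
    rw [← h] at h2
    omega
  obtain ⟨j, hj⟩ : ∃ j, k = j + 1 := ⟨k - 1, by omega⟩
  have h4 : K₁ ≤ j := by omega
  have h5 : n j < N := by
    by_contra h
    exact Nat.find_min hex (m := j) (by omega) ⟨h4, by omega⟩
  have h6 := hK₀ j ((le_max_right _ _).trans h4)
  have h7 := hK₀ k ((le_max_right _ _).trans h1)
  have h8 : (0 : ℝ) < n j := by exact_mod_cast h6.2.2
  refine ⟨k, (le_max_left _ _).trans h1, hW (n k) (d k) h2 ?_ ?_⟩
  · have h9 := h6.1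
    rw [div_lt_iff₀ h8, ← hj] at h9
    refine h9.le.trans (mul_le_mul_of_nonneg_left ?_ (by positivity))
    exact_mod_cast h5.le
  · calc |(d k : ℝ) / n k - δ₀| = |((d k : ℝ) / n k - δ) + (δ - δ₀)| := by ring_nf
      _ ≤ |(d k : ℝ) / n k - δ| + |δ - δ₀| := abs_add_le _ _
      _ ≤ c / 2 + c / 2 := add_le_add h7.2.1.le hδ
      _ = c := by ring

/-- For the pair `(n k, d k)`: the lengths `n k` tend to infinity with quotients tending to `1`, the
relative distances tend to `δ`, and the rates converge. -/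
def ConvergesAlong (δ : ℝ) (n d : ℕ → ℕ) : Prop :=
  Tendsto n atTop atTop ∧ Tendsto (fun k => (n (k + 1) : ℝ) / n k) atTop (𝓝 1) ∧
    Tendsto (fun k => (d k : ℝ) / n k) atTop (𝓝 δ) ∧
      ∃ L : ℝ, Tendsto (fun k => rate (n k) (d k)) atTop (𝓝 L)

/-- If the limit exists, then all rates with large `n` and `d / n` near `δ₀` are near it. -/
theorem uniform (δ₀ : ℝ) (h0 : 0 < δ₀) (L : ℝ)
    (hL : Tendsto (fun n : ℕ => rate n ⌊δ₀ * n⌋₊) atTop (𝓝 L)) (ε : ℝ) (hε : 0 < ε) :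
    ∃ c : ℝ, 0 < c ∧ ∃ M : ℕ, ∀ n d : ℕ, M ≤ n → |(d : ℝ) / n - δ₀| ≤ c → |rate n d - L| ≤ ε := by
  set η : ℝ := min (1 / 3) (ε / 2) with hη
  have hη0 : 0 < η := lt_min (by norm_num) (by positivity)
  have hη1 : η ≤ 1 / 3 := min_le_left _ _
  have hη2 : η ≤ ε / 2 := min_le_right _ _
  set c : ℝ := min (δ₀ * η / 8) (η / 16) with hc
  have hc0 : 0 < c := lt_min (by positivity) (by positivity)
  have hc1 : c ≤ δ₀ * η / 8 := min_le_left _ _
  have hc2 : c ≤ η / 16 := min_le_right _ _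
  have hL0 : 0 ≤ L := ge_of_tendsto' hL fun n => rate_nonneg _ _
  have e1 : ∀ᶠ n : ℕ in atTop, |rate n ⌊δ₀ * n⌋₊ - L| < η := by
    have := (Metric.tendsto_nhds.1 hL) η hη0
    simpa [Real.dist_eq] using this
  obtain ⟨M₀, hM₀⟩ := eventually_atTop.1 e1
  set B : ℕ := max M₀ ⌈16 / (7 * η)⌉₊ with hB
  refine ⟨c, hc0, ⌈2 * ((B : ℝ) + 1) + 2 / c + 3 / η⌉₊, fun n d hn hd => ?_⟩
  have hn' : 2 * ((B : ℝ) + 1) + 2 / c + 3 / η ≤ n := (Nat.le_ceil _).trans (by exact_mod_cast hn)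
  have p1 : 0 < 2 / c := by positivity
  have p2 : 0 < 3 / η := by positivity
  have p3 : (0 : ℝ) ≤ B := Nat.cast_nonneg B
  have hnpos : (0 : ℝ) < n := by linarith
  have q1 : 2 * ((B : ℝ) + 1) ≤ n := by linarith
  have q2 : 2 ≤ c * n := by
    have : 2 / c ≤ n := by linarith
    rw [div_le_iff₀ hc0] at this
    linarith
  have q3 : 3 / η ≤ n := by linarith
  rw [abs_le]
  constructor
  · -- the lower bound
    rcases le_or_gt L η with hLη | hLη
    · have := rate_nonneg n d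
      linarith
    set N₁ : ℕ := ⌈(n : ℝ) * (1 + η / 2)⌉₊ with hN₁
    have r1 : (n : ℝ) * (1 + η / 2) ≤ N₁ := Nat.le_ceil _
    have r2 : (N₁ : ℝ) < n * (1 + η / 2) + 1 := Nat.ceil_lt_add_one (by positivity)
    have r3 : (n : ℝ) ≤ N₁ / (1 + η / 2) := by
      rw [le_div_iff₀ (by positivity)]; exact r1
    have r4 : (N₁ : ℝ) / (1 + η / 2) < n + 1 := by
      rw [div_lt_iff₀ (by positivity)]
      nlinarith
    have r5 : ⌊(N₁ : ℝ) / (1 + η / 2)⌋₊ = n := by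
      rw [Nat.floor_eq_iff (by positivity)]
      exact ⟨r3, r4⟩
    have r6 : n ≤ N₁ := by
      have : (n : ℝ) ≤ N₁ := by nlinarith
      exact_mod_cast this
    have r7 : M₀ ≤ N₁ := by
      have e2 : (M₀ : ℝ) ≤ B := by exact_mod_cast le_max_left M₀ _
      have e3 : (M₀ : ℝ) ≤ n := by linarith
      exact (by exact_mod_cast e3 : M₀ ≤ n).trans r6
    have r8 := (abs_lt.1 (hM₀ N₁ r7)).1
    have r9 := high_window (b := L - η) h0 (by linarith) hη0 hη1 hc0 hc1 hc2 (N₁ := N₁)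
      (q3.trans r3) (by linarith) n d (by rw [r5]) (by rw [r5]; nlinarith) hd
    have r10 : L - η - η ≤ rate n d := r9
    linarith
  · -- the upper bound
    set N₀ : ℕ := ⌊(n : ℝ) / (1 + η / 2)⌋₊ with hN₀
    have r1 : (N₀ : ℝ) ≤ n / (1 + η / 2) := Nat.floor_le (by positivity)
    have r2 : (n : ℝ) / (1 + η / 2) < N₀ + 1 := Nat.lt_floor_add_one _
    rw [le_div_iff₀ (by positivity)] at r1
    rw [div_lt_iff₀ (by positivity)] at r2
    have r3 : (B : ℝ) ≤ N₀ := by nlinarith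
    have r4 : M₀ ≤ N₀ := (le_max_left _ _).trans (by exact_mod_cast r3)
    have r5 : 16 / (7 * η) ≤ N₀ := (Nat.le_ceil _).trans
      (le_trans (by exact_mod_cast le_max_right M₀ _) r3)
    have r6 := (abs_lt.1 (hM₀ N₀ r4)).2
    have r7 : ⌈(1 + η / 2) * (N₀ : ℝ)⌉₊ ≤ n := Nat.ceil_le.2 (by linarith)
    have r8 : (n : ℝ) ≤ (1 + c) * (⌈(1 + η / 2) * (N₀ : ℝ)⌉₊ : ℕ) := by
      have e2 : (1 + η / 2) * (N₀ : ℝ) ≤ (⌈(1 + η / 2) * (N₀ : ℝ)⌉₊ : ℕ) := Nat.le_ceil _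
      have e3 : (n : ℝ) - (1 + η / 2) ≤ (1 + η / 2) * N₀ := by nlinarith
      have e4 : (1 + c) * ((n : ℝ) - (1 + η / 2)) ≤
          (1 + c) * (⌈(1 + η / 2) * (N₀ : ℝ)⌉₊ : ℕ) :=
        mul_le_mul_of_nonneg_left (e3.trans e2) (by positivity)
      have e5 : (1 + c) * (1 + η / 2) ≤ 2 := by nlinarith
      nlinarith
    have r9 := low_window (a := L + η) h0 (by linarith) hη0 hη1 hc0 hc1 hc2 r5 (by linarith)
      n d r7 r8 hd
    have r10 : rate n d ≤ L + η + η := r9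
    linarith

/-- The limit of the rates at `δ` exists. -/
def LimitExists (δ : ℝ) : Prop := ∃ L : ℝ, Tendsto (fun n : ℕ => rate n ⌊δ * n⌋₊) atTop (𝓝 L)

theorem floor_div (δ : ℝ) (h0 : 0 < δ) :
    Tendsto (fun n : ℕ => ((⌊δ * n⌋₊ : ℕ) : ℝ) / n) atTop (𝓝 δ) :=
  (tendsto_nat_floor_mul_div_atTop h0.le).comp tendsto_natCast_atTop_atTop

theorem along_of_limit {δ : ℝ} (h0 : 0 < δ) (h : LimitExists δ) :
    ∃ n d : ℕ → ℕ, ConvergesAlong δ n d := by
  obtain ⟨L, hL⟩ := h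
  have hinf : Tendsto (fun k : ℕ => (k : ℝ) + 1) atTop atTop :=
    tendsto_atTop_add_const_right _ _ tendsto_natCast_atTop_atTop
  refine ⟨fun k => k + 1, fun k => ⌊δ * ((k + 1 : ℕ) : ℝ)⌋₊, tendsto_add_atTop_nat 1, ?_,
    (floor_div δ h0).comp (tendsto_add_atTop_nat 1), L, hL.comp (tendsto_add_atTop_nat 1)⟩
  have h2 : Tendsto (fun k : ℕ => 1 + 1 / ((k : ℝ) + 1)) atTop (𝓝 (1 + 0)) :=
    tendsto_const_nhds.add (tendsto_const_nhds.div_atTop hinf)
  rw [add_zero] at h2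
  refine h2.congr fun k => ?_
  push_cast
  field_simp

/-- For every real `δ₀ > 0` the following are equivalent.
(a) The limit of `rate n ⌊δ₀ n⌋` exists.
(b) `rate n d` converges as `n → ∞` and `d / n → δ₀`.
(c) `δ₀` is in the closure of the set of the real numbers `δ` for which the rates converge along some
sequence of lengths with quotients tending to `1` and relative distances tending to `δ`.
(d) There are no `α < β` and `c > 0` such that for infinitely many `N` all rates with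
`N ≤ n ≤ (1 + c) N`, `|d / n - δ₀| ≤ c` are at most `α`, and for infinitely many `N` all of them are
at least `β`. -/
theorem result (δ₀ : ℝ) (h0 : 0 < δ₀) : List.TFAE [
    LimitExists δ₀,
    ∃ L : ℝ, ∀ ε : ℝ, 0 < ε → ∃ c : ℝ, 0 < c ∧ ∃ M : ℕ, ∀ n d : ℕ, M ≤ n →
      |(d : ℝ) / n - δ₀| ≤ c → |rate n d - L| ≤ ε,
    δ₀ ∈ closure {δ : ℝ | ∃ n d : ℕ → ℕ, ConvergesAlong δ n d},
    ¬∃ α β c : ℝ, α < β ∧ 0 < c ∧
      (∀ M : ℕ, ∃ N, M ≤ N ∧ Window δ₀ c (fun r => r ≤ α) N) ∧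
      ∀ M : ℕ, ∃ N, M ≤ N ∧ Window δ₀ c (fun r => β ≤ r) N] := by
  tfae_have 1 → 2 := fun ⟨L, hL⟩ => ⟨L, uniform δ₀ h0 L hL⟩
  tfae_have 2 → 1 := by
    rintro ⟨L, hL⟩
    refine ⟨L, Metric.tendsto_nhds.2 fun ε hε => ?_⟩
    obtain ⟨c, hc, M, hM⟩ := hL (ε / 2) (by positivity)
    filter_upwards [Metric.tendsto_nhds.1 (floor_div δ₀ h0) c hc, eventually_ge_atTop M]
      with n h1 h2
    rw [Real.dist_eq] at h1 ⊢
    exact (hM n _ h2 h1.le).trans_lt (by linarith)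
  tfae_have 1 → 3 := fun h => subset_closure (along_of_limit h0 h)
  tfae_have 3 → 4 := by
    rintro h ⟨α, β, c, hαβ, hc, hα, hβ⟩
    obtain ⟨δ, ⟨n, d, hn, hq, hd, L, hL⟩, hδ⟩ := Metric.mem_closure_iff.1 h (c / 2) (by positivity)
    have g3 : |δ - δ₀| ≤ c / 2 := by
      rw [dist_comm, Real.dist_eq] at hδ
      exact hδ.le
    have h2 : L ≤ α := le_of_tendsto_of_frequently hL (meets hc g3 hα hn hq hd)
    have h3 : β ≤ L := ge_of_tendsto_of_frequently hL (meets hc g3 hβ hn hq hd)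
    linarith
  tfae_have 4 → 1 := fun h => by
    by_contra hno
    exact h (robust δ₀ h0 hno)
  tfae_finish

end Pool.Agent.Results.MP_fb48ba_lc.RobustFailure
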